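import Pool.Agent.TH766.NT.Branch
import Pool.Agent.W619.Y.Unir

/-!
The numerical dimension of the canonical divisor is at most the dimension.
-/

set_option autoImplicit false
set_option maxHeartbeats 400000
set_option linter.overlappingInstances false
set_option linter.unusedSectionVars false

open FF IntermediateField Pool.Agent.W603.LV Pool.Agent.W619.PQ
open Pool.Agent.W619.TW Pool.Agent.W602.GT Pool.Agent.TH122.AB Pool.Agent.TH756.PN
open Pool.Agent.W619.Y

namespace Pool.Agent.TH766.NT

theorem map_adj {k K E : Type} [Field k] [Field K] [Field E] [Algebra k K] [Algebra k E]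
    (φ : K →ₐ[k] E) {n : ℕ} (z : Fin n → K) :
    (IntermediateField.adjoin k (Set.range z)).map φ =
      IntermediateField.adjoin k (Set.range fun j => φ (z j)) := by
  rw [IntermediateField.adjoin_map, ← Set.range_comp]
  rfl

/-- a Galois cover of affine space over a given variety -/
theorem exists_galois {k K : Type} [Field k] [CharZero k] [Field K] [Algebra k K]
    [Algebra.EssFiniteType k K] {n : ℕ} {z : Fin n → K} (hz : IsTranscendenceBasis k z) :
    ∃ (E : Type) (_ : Field E) (_ : Algebra k E) (_ : Algebra K E), IsScalarTower k K E ∧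
      FiniteDimensional K E ∧ ∃ F : IntermediateField k E, FiniteDimensional F E ∧ IsGalois F E ∧
        F = IntermediateField.adjoin k (Set.range fun j => algebraMap K E (z j)) := by
  classical
  have hfd := fin_over (k := k) z hz
  set F0 := IntermediateField.adjoin k (Set.range z) with hF0
  have hc : CharZero F0 := charZero_of_injective_algebraMap (algebraMap k F0).injective
  let Ω := AlgebraicClosure K
  let E := normalClosure F0 K Ω
  have i1 : IsScalarTower k K Ω := inferInstance
  have halg0 : Algebra.IsAlgebraic F0 K := inferInstance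
  have i2 : Algebra.IsAlgebraic K Ω := AlgebraicClosure.isAlgebraic K
  have i3 : Algebra.IsAlgebraic F0 Ω := Algebra.IsAlgebraic.trans F0 K Ω
  have i4 : IsAlgClosure F0 Ω := ⟨inferInstance, i3⟩
  have i5 : IsGalois F0 Ω := inferInstance
  have hE1 : FiniteDimensional F0 E := inferInstance
  have hgal : IsGalois F0 E := IsGalois.normalClosure F0 K Ω
  have t1 : IsScalarTower F0 K E := inferInstance
  let iE : Algebra k E := ((algebraMap F0 E).comp (algebraMap k F0)).toAlgebra
  have t2 : IsScalarTower k F0 E := IsScalarTower.of_algebraMap_eq fun c => rfl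
  have t3 : IsScalarTower k K E := IsScalarTower.of_algebraMap_eq fun c => by
    rw [IsScalarTower.algebraMap_apply k F0 E, IsScalarTower.algebraMap_apply F0 K E,
      ← IsScalarTower.algebraMap_apply k F0 K]
  have hfin : FiniteDimensional K E := FiniteDimensional.right F0 K E
  let φ : K →ₐ[k] E := IsScalarTower.toAlgHom k K E
  let F := F0.map φ
  let e : F0 ≃ₐ[k] F := F0.equivMap φ
  have he : RingHom.comp (algebraMap F E) (e : F0 ≃+* F) =
      RingHom.comp (RingEquiv.refl E : E →+* E) (algebraMap F0 E) := by
    refine RingHom.ext fun x => ?_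
    change φ (x : K) = algebraMap F0 E x
    rw [IsScalarTower.algebraMap_apply F0 K E]
    rfl
  refine ⟨E, inferInstance, iE, inferInstance, t3, hfin, F, ?_, ?_, ?_⟩
  · exact Module.Finite.of_equiv_equiv (e : F0 ≃+* F) (RingEquiv.refl E) he
  · exact IsGalois.of_equiv_equiv (f := (e : F0 ≃+* F)) (g := RingEquiv.refl E) he
  · exact map_adj φ z

/-- **`ν ≤ dim`.** -/
theorem numLe_top {k K : Type} [Field k] [CharZero k] [IsAlgClosed k] [Field K] [Algebra k K]
    [Algebra.EssFiniteType k K] {n : ℕ} (hn : Algebra.trdeg k K = (n + 1 : ℕ)) :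
    NumLe k K (n + 1) (fun _ => False) (n + 1) := by
  obtain ⟨z, hz⟩ := exists_fin_basis (k := k) (n + 1) hn
  obtain ⟨E, _, _, _, _, hfin, F, hF1, hF2, hF⟩ := exists_galois hz
  have halg : Algebra.IsAlgebraic K E := inferInstance
  have hess : Algebra.EssFiniteType k E := Algebra.EssFiniteType.comp k K E
  have hzE : IsTranscendenceBasis k (fun j => algebraMap K E (z j)) := by
    have h1 : IsTranscendenceBasis k (algebraMap K E ∘ z) := hz.algebraMap_comp
    exact h1
  obtain ⟨hfinG, hfix⟩ := fixing_props F
  have hmem : ∀ j, algebraMap K E (z j) ∈ fixedField F.fixingSubgroup := by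
    intro j
    rw [hfix, hF]
    exact subset_adjoin _ _ ⟨j, rfl⟩
  have h1 : NumLe k E (n + 1) (fun _ => False) (n + 1) :=
    numLe_gal F.fixingSubgroup (X := fun j => ⟨algebraMap K E (z j), hmem j⟩)
      (gens_of (Z := fun j => algebraMap K E (z j)) hzE.1 (hfix.trans hF) fun j => rfl) hzE
      fun y hy => fin_over y hy
  have hT := pTRANS k K E (n + 1) hn (fun y hy => fin_over y hy) (fun _ => False)
  rw [bdUp_false] at hT
  exact hT.2.2 _ h1

end Pool.Agent.TH766.NT
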