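import Pool.Agent.TH756.PN.Nu
import Pool.Agent.TH122.AB.Gal

/-!
The numerical dimension of a Galois cover of affine space is at most its dimension.
-/

set_option autoImplicit false

set_option linter.overlappingInstances false
set_option linter.unusedSectionVars false

open FF MvPolynomial IntermediateField Pool.Agent.W603.LV Pool.Agent.W619.PQ
open Pool.Agent.W619.TW Pool.Agent.W602.GT Pool.Agent.TH122.AB Pool.Agent.TH756.PN

namespace Pool.Agent.TH766.NT

variable {k K : Type} [Field k] [CharZero k] [Field K] [Algebra k K] {d : ℕ}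

theorem exists_coe {E : IntermediateField k K} {X : Fin d → E} (Q : MvPolynomial (Fin d) k) :
    ∃ a : E, a = aeval X Q ∧ aeval (fun j => (X j : K)) Q = (a : K) := by
  refine ⟨aeval X Q, rfl, ?_⟩
  have h1 := (MvPolynomial.aeval_algebraMap_apply K X Q).symm
  exact h1.symm

theorem eq_one_of {E : IntermediateField k K} {θ : K} (h : E⟮θ⟯ = ⊤) {g : K ≃ₐ[k] K}
    (hE : ∀ c ∈ E, g c = c) (hθ : g θ = θ) : g = 1 := by
  apply AlgEquiv.ext
  intro z
  have hz : z ∈ E⟮θ⟯ := by rw [h]; trivial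
  change g z = z
  induction hz using IntermediateField.adjoin_induction with
  | mem x hx =>
    rw [Set.mem_singleton_iff] at hx
    rw [hx, hθ]
  | algebraMap c => exact hE _ c.2
  | add x y _ _ hx hy => rw [map_add, hx, hy]
  | inv x _ hx => rw [map_inv₀, hx]
  | mul x y _ _ hx hy => rw [map_mul, hx, hy]

theorem theta_of {E : IntermediateField k K} {X : Fin d → E}
    (hX : Gens (k := k) X) (hZ : IsTranscendenceBasis k fun j => (X j : K)) {θ : K}
    (hθ : E⟮θ⟯ = ⊤) :
    ∃ θ : K, IsIntegral (Algebra.adjoin k (Set.range fun j => (X j : K))) θ ∧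
      ∀ g : K ≃ₐ[k] K, (∀ c ∈ E, g c = c) → g θ = θ → g = 1 := by
  obtain ⟨Q, hQ, hQi⟩ := exists_mult hZ θ
  obtain ⟨a, ha, h1⟩ := exists_coe (E := E) (X := X) Q
  have ha0 : a ≠ 0 := by
    rw [ha]
    exact hX.ne hQ
  clear ha
  have h3 : (a : K) ≠ 0 := by
    intro h
    exact ha0 (Subtype.ext h)
  refine ⟨_, hQi, fun g hfix h => ?_⟩
  rw [h1, map_mul, hfix _ a.2] at h
  exact eq_one_of hθ hfix (mul_left_cancel₀ h3 h)

/-- an integral primitive element -/
theorem exists_theta (G : Subgroup (K ≃ₐ[k] K)) [Finite G] {X : Fin d → fixedField G}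
    (hX : Gens (k := k) X) (hZ : IsTranscendenceBasis k fun j => (X j : K)) :
    ∃ θ : K, IsIntegral (Algebra.adjoin k (Set.range fun j => (X j : K))) θ ∧
      ∀ g ∈ G, g θ = θ → g = 1 := by
  have hGal : IsGaloisGroup G (fixedField G) K := isGaloisGroup_fixed G
  have hfdG : FiniteDimensional (fixedField G) K := IsGaloisGroup.finiteDimensional G _ K
  have hc0 : CharZero (fixedField G) := charZero_of_injective_algebraMap
    (algebraMap k (fixedField G)).injective
  obtain ⟨θ, hθ⟩ := Field.exists_primitive_element (fixedField G) K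
  obtain ⟨θ', h1, h2⟩ := theta_of hX hZ hθ
  exact ⟨θ', h1, fun g hg => h2 g fun c hc => hc ⟨g, hg⟩⟩

/-- **The branch locus** is contained in a hypersurface. -/
theorem exists_branch (G : Subgroup (K ≃ₐ[k] K)) [Finite G] {X : Fin d → fixedField G}
    (hX : Gens (k := k) X) (hZ : IsTranscendenceBasis k fun j => (X j : K)) :
    ∃ lam : MvPolynomial (Fin d) k, lam ≠ 0 ∧
      ∀ p : MvPolynomial (Fin d) k, Irreducible p → ∀ v : Place k (fixedField G),
      v.ord (aeval X p) = 1 →
      (∀ P, P ≠ 0 → 0 ≤ v.ord (aeval X P) ∧ (v.ord (aeval X P) = 0 ↔ ¬ p ∣ P)) →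
      ∃ (w : Place k K) (e : ℕ), Over w v e ∧ (e = 1 ∨ p ∣ lam) := by
  classical
  have hG : Fintype G := Fintype.ofFinite G
  obtain ⟨θ, hθi, hθ⟩ := exists_theta G hX hZ
  set A0 := Algebra.adjoin k (Set.range fun j => (X j : K)) with hA0
  have hfixA : ∀ g ∈ G, ∀ a ∈ A0, g a = a := by
    intro g hg a ha
    have ha' : a ∈ (aeval (fun j => (X j : K)) : MvPolynomial (Fin d) k →ₐ[k] K).range := by
      rw [← Algebra.adjoin_range_eq_range_aeval]
      exact ha
    obtain ⟨P, rfl⟩ := ha'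
    change g (aeval (fun j => (X j : K)) P) = aeval (fun j => (X j : K)) P
    obtain ⟨a, -, h1⟩ := exists_coe (E := fixedField G) (X := X) P
    rw [h1]
    exact a.2 ⟨g, hg⟩
  have hint : ∀ g ∈ G, ∀ z : K, IsIntegral A0 z → IsIntegral A0 (g z) := by
    intro g hg z hz
    let φ : K →ₐ[A0] K := { (g : K →+* K) with
      commutes' := fun a => hfixA g hg a a.2 }
    exact hz.map φ
  set Δ : K := ∏ g : G, if (g : K ≃ₐ[k] K) = 1 then 1 else (g : K ≃ₐ[k] K) θ - θ with hΔ
  have hΔ0 : Δ ≠ 0 := by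
    rw [hΔ]
    refine Finset.prod_ne_zero_iff.2 fun g _ => ?_
    split_ifs with h1
    · exact one_ne_zero
    · intro h2
      exact h1 (hθ g g.2 (sub_eq_zero.1 h2))
  have hΔi : IsIntegral A0 Δ := by
    rw [hΔ]
    refine IsIntegral.prod _ fun g _ => ?_
    split_ifs with h1
    · exact _root_.isIntegral_one
    · exact (hint g g.2 θ hθi).sub hθi
  set N : K := ∏ h : G, (h : K ≃ₐ[k] K) Δ with hN
  have hN0 : N ≠ 0 := by
    rw [hN]
    exact Finset.prod_ne_zero_iff.2 fun h _ => (map_ne_zero _).2 hΔ0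
  have hNfix : N ∈ fixedField G := by
    intro g
    change (g : K ≃ₐ[k] K) N = N
    rw [hN, map_prod]
    refine Fintype.prod_equiv (Equiv.mulLeft g) _ _ fun h => ?_
    rfl
  obtain ⟨P, Q, hQ, hPQ⟩ := hX.gen ⟨N, hNfix⟩
  have hP : P ≠ 0 := by
    rintro rfl
    rw [map_zero, zero_div] at hPQ
    exact hN0 (congrArg Subtype.val hPQ)
  refine ⟨P * Q, mul_ne_zero hP hQ, fun p hp v hvp hv => ?_⟩
  obtain ⟨w, e, I, hwv, hIe, hI⟩ := exists_inertia G v
  refine ⟨w, e, hwv, ?_⟩
  by_contra hcon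
  push Not at hcon
  obtain ⟨he, hpl⟩ := hcon
  have hpP : ¬ p ∣ P := fun h => hpl (h.mul_right Q)
  have hpQ : ¬ p ∣ Q := fun h => hpl (h.mul_left P)
  have hvN : v.ord (⟨N, hNfix⟩ : fixedField G) = 0 := by
    rw [hPQ, v.ord_div (hX.ne hP) (hX.ne hQ), (hv P hP).2.2 hpP, (hv Q hQ).2.2 hpQ, sub_zero]
  have hwN : w.ord N = 0 := by
    have h1 := hwv.2 (⟨N, hNfix⟩ : fixedField G)
    rw [hvN, mul_zero] at h1
    exact h1
  have hregP : ∀ P : MvPolynomial (Fin d) k, w.Reg (aeval (fun j => (X j : K)) P) := by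
    intro P
    by_cases hP0 : P = 0
    · rw [hP0, map_zero]
      exact w.reg_zero
    · obtain ⟨a, ha, h1⟩ := exists_coe (E := fixedField G) (X := X) P
      rw [h1]
      right
      have h2 := hwv.2 a
      change w.ord (a : K) = _ at h2
      rw [h2]
      have h3 := (hv P hP0).1
      rw [← ha] at h3
      exact mul_nonneg (Int.natCast_nonneg _) h3
  have hregI : ∀ z : K, IsIntegral A0 z → w.Reg z := fun z hz => reg_of_int hregP hz
  -- a nontrivial element of the inertia group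
  obtain ⟨g, hgI, hg1⟩ : ∃ g ∈ I, g ≠ 1 := by
    by_contra hall
    push Not at hall
    have h1 : I = ⊥ := by
      rw [eq_bot_iff]
      intro g hg
      rw [Subgroup.mem_bot]
      exact hall g hg
    rw [h1, Subgroup.card_bot] at hIe
    exact he hIe.symm
  have hgθ : w.ord ((g : K ≃ₐ[k] K) θ - θ) ≥ 1 := by
    have h1 : Ge w 0 θ := by
      rcases hregI θ hθi with h | h
      · exact Or.inl h
      · exact Or.inr (by exact_mod_cast h)
    rcases hI g hgI θ h1 with h | h
    · exfalso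
      apply hg1
      apply Subtype.ext
      exact hθ g g.2 (sub_eq_zero.1 h)
    · exact_mod_cast h
  have hΔ1 : 1 ≤ w.ord Δ := by
    rw [hΔ, ← Finset.mul_prod_erase Finset.univ _ (Finset.mem_univ g)]
    have hg1' : (g : K ≃ₐ[k] K) ≠ 1 := fun h => hg1 (Subtype.ext h)
    rw [if_neg hg1']
    have h1 : (g : K ≃ₐ[k] K) θ - θ ≠ 0 := fun h => hg1' (hθ g g.2 (sub_eq_zero.1 h))
    have h2 : ∏ g ∈ Finset.univ.erase g, (if (g : K ≃ₐ[k] K) = 1 then (1 : K)
        else (g : K ≃ₐ[k] K) θ - θ) ≠ 0 := by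
      refine Finset.prod_ne_zero_iff.2 fun g _ => ?_
      split_ifs with h1
      · exact one_ne_zero
      · intro h2
        exact h1 (hθ g g.2 (sub_eq_zero.1 h2))
    have h3 : w.Reg (∏ g ∈ Finset.univ.erase g, (if (g : K ≃ₐ[k] K) = 1 then (1 : K)
        else (g : K ≃ₐ[k] K) θ - θ)) := by
      refine hregI _ (IsIntegral.prod _ fun g _ => ?_)
      split_ifs with h1
      · exact _root_.isIntegral_one
      · exact (hint g g.2 θ hθi).sub hθi
    rw [w.ord_mul h1 h2]
    have h4 := h3.resolve_left h2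
    linarith
  have hN1 : 1 ≤ w.ord N := by
    rw [hN, ← Finset.mul_prod_erase Finset.univ _ (Finset.mem_univ (1 : G))]
    have h1 : ((1 : G) : K ≃ₐ[k] K) Δ = Δ := rfl
    have h2 : ∏ h ∈ Finset.univ.erase (1 : G), (h : K ≃ₐ[k] K) Δ ≠ 0 :=
      Finset.prod_ne_zero_iff.2 fun h _ => (map_ne_zero _).2 hΔ0
    have h3 : w.Reg (∏ h ∈ Finset.univ.erase (1 : G), (h : K ≃ₐ[k] K) Δ) :=
      hregI _ (IsIntegral.prod _ fun h _ => hint h h.2 Δ hΔi)
    rw [h1, w.ord_mul hΔ0 h2]
    have h4 := h3.resolve_left h2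
    linarith
  omega

/-- the numerical dimension of a Galois cover of affine space is at most its dimension -/
theorem numLe_gal {n : ℕ} (G : Subgroup (K ≃ₐ[k] K)) [Finite G] {X : Fin (n + 1) → fixedField G}
    (hX : Gens (k := k) X) (hZ : IsTranscendenceBasis k fun j => (X j : K))
    (hfd : ∀ y : Fin (n + 1) → K, IsTranscendenceBasis k y →
      FiniteDimensional (IntermediateField.adjoin k (Set.range y)) K) :
    NumLe k K (n + 1) (fun _ => False) (n + 1) := by
  classical
  obtain ⟨lam, hlam, hbr⟩ := exists_branch G hX hZ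
  have h := numLe_blocks G hX hZ hfd (κ := Empty) (α := Unit) (fun t => t.elim)
    (fun t => t.elim) (fun t => t.elim) (fun t => t.elim) (fun t => t.elim) (fun _ => lam)
    (fun _ => hlam) (fun _ => none) (fun t => t.elim) (fun t => t.elim) (fun p hp v hvp hv => by
      obtain ⟨w, e, hwv, h⟩ := hbr p hp v hvp hv
      refine ⟨w, e, hwv, ?_⟩
      rcases h with h | h
      · exact Or.inl h
      · exact Or.inr ⟨(), h, fun t => t.elim⟩) (fun t => t.elim)
  have hcard : (Finset.univ.filter fun b : Fin (n + 1) =>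
      ∀ t : Empty, b ∉ (t.elim : Finset (Fin (n + 1)))).card = n + 1 := by
    rw [Finset.filter_true_of_mem fun b _ t => t.elim]
    simp
  rw [hcard] at h
  exact h

end Pool.Agent.TH766.NT
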